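import Pool.Agent.Helper12.KS.Main

/-!
# Consecutive Kalita-Saikia numbers: the prime indices below 400
-/

set_option autoImplicit false

namespace Pool.Agent.Helper12.KS

/-- modular power, `f` = fuel -/
def pmod (m : ℕ) : ℕ → ℕ → ℕ → ℕ → ℕ
  | 0, _, _, acc => acc
  | f + 1, a, e, acc => if e = 0 then acc else
      pmod m f (a * a % m) (e / 2) (if e % 2 = 1 then acc * a % m else acc)

lemma pmod_spec (m : ℕ) : ∀ f a e acc : ℕ, e < 2 ^ f →
    ((pmod m f a e acc : ℕ) : ZMod m) = (acc : ZMod m) * (a : ZMod m) ^ e := by
  intro f
  induction f with
  | zero => intro a e acc he; have : e = 0 := by simpa using he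
            subst this; simp [pmod]
  | succ f ih =>
    intro a e acc he
    by_cases h0 : e = 0
    · subst h0; simp [pmod]
    · have h1 : e / 2 < 2 ^ f := by
        rw [pow_succ] at he; omega
      rw [pmod, if_neg h0, ih _ _ _ h1]
      have h2 : ((a * a % m : ℕ) : ZMod m) = (a : ZMod m) ^ 2 := by
        rw [ZMod.natCast_mod]; push_cast; ring
      rw [h2, ← pow_mul]
      rcases Nat.mod_two_eq_zero_or_one e with h3 | h3
      · rw [if_neg (by omega)]
        congr 2
        omega
      · rw [if_pos h3, ZMod.natCast_mod]
        have h4 : e = 2 * (e / 2) + 1 := by omega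
        push_cast
        nth_rewrite 2 [h4]
        rw [pow_succ]
        ring

/-- Lucas' test -/
lemma lucas {p : ℕ} (a : ℕ) (L : List ℕ) (hp : 1 < p) (hL : ∀ l ∈ L, l.Prime)
    (hprod : L.prod = p - 1) (hb : p < 2 ^ 100) (h1 : pmod p 100 a (p - 1) 1 % p = 1)
    (h2 : ∀ l ∈ L, pmod p 100 a ((p - 1) / l) 1 % p ≠ 1) : p.Prime := by
  refine lucas_primality p (a : ZMod p) ?_ ?_
  · have h := pmod_spec p 100 a (p - 1) 1 (by omega)
    rw [Nat.cast_one, one_mul] at h
    rw [← h, ← ZMod.natCast_mod, h1, Nat.cast_one]
  · intro q hq hd hcon
    rw [← hprod] at hd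
    obtain ⟨l, hl, hql⟩ := (Prime.dvd_prod_iff hq.prime).mp hd
    have hlq : q = l := (Nat.prime_dvd_prime_iff_eq hq (hL l hl)).mp hql
    subst hlq
    apply h2 q hl
    have h := pmod_spec p 100 a ((p - 1) / q) 1 (lt_of_le_of_lt (Nat.div_le_self _ _) (by omega))
    rw [Nat.cast_one, one_mul, hcon, ← Nat.cast_one (R := ZMod p), ZMod.natCast_eq_natCast_iff'] at h
    rw [h]
    exact Nat.mod_eq_of_lt hp

lemma fac_one {r n : ℕ} (hr : r.Prime) (h1 : n % r = 0) (h2 : n % (r * r) ≠ 0) :
    n.factorization r = 1 := by
  have hn : n ≠ 0 := by rintro rfl; simp at h2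
  have h3 : 1 ≤ n.factorization r :=
    (hr.dvd_iff_one_le_factorization hn).mp (Nat.dvd_of_mod_eq_zero h1)
  have h4 : ¬ 2 ≤ n.factorization r := by
    intro h5
    apply h2
    rw [← pow_two]
    exact Nat.mod_eq_zero_of_dvd ((hr.pow_dvd_iff_le_factorization hn).mpr h5)
  omega

lemma not_prime {r f : ℕ} (hf1 : 1 < f) (hf2 : f < r * r + r + 1) (hf : (r * r + r + 1) % f = 0)
    (hr : r.Prime) : ¬ (∑ d ∈ (r ^ 2).divisors, d).Prime := by
  rw [sig hr]
  have h1 : ∑ i ∈ Finset.range (2 + 1), r ^ i = r * r + r + 1 := by
    rw [Finset.sum_range_succ, Finset.sum_range_succ, Finset.sum_range_succ, Finset.sum_range_zero]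
    ring
  rw [h1]
  intro h2
  rcases (Nat.dvd_prime h2).mp (Nat.dvd_of_mod_eq_zero hf) with h3 | h3 <;> omega

lemma kill_x {q r : ℕ} (f : ℕ) (hr : r.Prime) (h1 : X q % r = 0) (h2 : X q % (r * r) ≠ 0)
    (hf1 : 1 < f) (hf2 : f < r * r + r + 1) (hf : (r * r + r + 1) % f = 0) :
    ¬ (KS (X q ^ 2) ∧ KS (X q ^ 2 + 1)) := by
  rintro ⟨h, -⟩
  have h3 := h.2 r hr (dvd_pow (Nat.dvd_of_mod_eq_zero h1) two_ne_zero)
  rw [Nat.factorization_pow, Finsupp.smul_apply, fac_one hr h1 h2, smul_eq_mul, mul_one] at h3
  exact not_prime hf1 hf2 hf hr h3

lemma kill_y {q r : ℕ} (f : ℕ) (hq : Odd q) (hr : r.Prime) (h1 : Y q % r = 0)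
    (h2 : Y q % (r * r) ≠ 0) (hf1 : 1 < f) (hf2 : f < r * r + r + 1)
    (hf : (r * r + r + 1) % f = 0) : ¬ (KS (X q ^ 2) ∧ KS (X q ^ 2 + 1)) := by
  rintro ⟨-, h⟩
  rw [norm_odd hq] at h
  have hYodd := Y_odd hq
  have hrY : r ∣ Y q := Nat.dvd_of_mod_eq_zero h1
  have hr2 : r ≠ 2 := by
    rintro rfl
    rw [← Nat.not_even_iff_odd] at hYodd
    exact hYodd (even_iff_two_dvd.mpr hrY)
  have hY0 : Y q ≠ 0 := hYodd.pos.ne'
  have h3 := h.2 r hr (dvd_mul_of_dvd_right (dvd_pow hrY two_ne_zero) _)
  rw [Nat.factorization_mul two_ne_zero (pow_ne_zero 2 hY0), Finsupp.add_apply,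
    Nat.factorization_eq_zero_of_not_dvd (fun h4 => hr2
      ((Nat.prime_dvd_prime_iff_eq hr Nat.prime_two).mp h4)), zero_add, Nat.factorization_pow,
    Finsupp.smul_apply, fac_one hr h1 h2, smul_eq_mul, mul_one] at h3
  exact not_prime hf1 hf2 hf hr h3


theorem p27661789 : Nat.Prime 27661789 := by
  refine lucas 2 [2, 2, 3, 3, 7, 11, 17, 587] (by norm_num) ?_ (by norm_num) (by norm_num) (by decide +kernel)
    (by decide +kernel)
  simp only [List.forall_mem_cons]
  exact ⟨(by norm_num), (by norm_num), (by norm_num), (by norm_num), (by norm_num), (by norm_num), (by norm_num), (by norm_num), fun _ h => absurd h List.not_mem_nil⟩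

theorem p35389201 : Nat.Prime 35389201 := by
  refine lucas 19 [2, 2, 2, 2, 3, 5, 5, 7, 11, 383] (by norm_num) ?_ (by norm_num) (by norm_num) (by decide +kernel)
    (by decide +kernel)
  simp only [List.forall_mem_cons]
  exact ⟨(by norm_num), (by norm_num), (by norm_num), (by norm_num), (by norm_num), (by norm_num), (by norm_num), (by norm_num), (by norm_num), (by norm_num), fun _ h => absurd h List.not_mem_nil⟩

theorem p1096384693 : Nat.Prime 1096384693 := by
  refine lucas 5 [2, 2, 3, 13, 7028107] (by norm_num) ?_ (by norm_num) (by norm_num) (by decide +kernel)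
    (by decide +kernel)
  simp only [List.forall_mem_cons]
  exact ⟨(by norm_num), (by norm_num), (by norm_num), (by norm_num), (by norm_num), fun _ h => absurd h List.not_mem_nil⟩

theorem p2374351069 : Nat.Prime 2374351069 := by
  refine lucas 6 [2, 2, 3, 61, 3243649] (by norm_num) ?_ (by norm_num) (by norm_num) (by decide +kernel)
    (by decide +kernel)
  simp only [List.forall_mem_cons]
  exact ⟨(by norm_num), (by norm_num), (by norm_num), (by norm_num), (by norm_num), fun _ h => absurd h List.not_mem_nil⟩

theorem p4792710581 : Nat.Prime 4792710581 := by
  refine lucas 2 [2, 2, 5, 7, 7, 41, 101, 1181] (by norm_num) ?_ (by norm_num) (by norm_num) (by decide +kernel)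
    (by decide +kernel)
  simp only [List.forall_mem_cons]
  exact ⟨(by norm_num), (by norm_num), (by norm_num), (by norm_num), (by norm_num), (by norm_num), (by norm_num), (by norm_num), fun _ h => absurd h List.not_mem_nil⟩

theorem p9420860357 : Nat.Prime 9420860357 := by
  refine lucas 2 [2, 2, 6971, 337859] (by norm_num) ?_ (by norm_num) (by norm_num) (by decide +kernel)
    (by decide +kernel)
  simp only [List.forall_mem_cons]
  exact ⟨(by norm_num), (by norm_num), (by norm_num), (by norm_num), fun _ h => absurd h List.not_mem_nil⟩

theorem p28492212829 : Nat.Prime 28492212829 := by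
  refine lucas 2 [2, 2, 3, 2374351069] (by norm_num) ?_ (by norm_num) (by norm_num) (by decide +kernel)
    (by decide +kernel)
  simp only [List.forall_mem_cons]
  exact ⟨(by norm_num), (by norm_num), (by norm_num), p2374351069, fun _ h => absurd h List.not_mem_nil⟩

theorem p63018038201 : Nat.Prime 63018038201 := by
  refine lucas 6 [2, 2, 2, 5, 5, 13, 13, 29, 239, 269] (by norm_num) ?_ (by norm_num) (by norm_num) (by decide +kernel)
    (by decide +kernel)
  simp only [List.forall_mem_cons]
  exact ⟨(by norm_num), (by norm_num), (by norm_num), (by norm_num), (by norm_num), (by norm_num), (by norm_num), (by norm_num), (by norm_num), (by norm_num), fun _ h => absurd h List.not_mem_nil⟩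

theorem p3555450220771 : Nat.Prime 3555450220771 := by
  refine lucas 2 [2, 3, 3, 3, 3, 3, 5, 7, 37, 5649221] (by norm_num) ?_ (by norm_num) (by norm_num) (by decide +kernel)
    (by decide +kernel)
  simp only [List.forall_mem_cons]
  exact ⟨(by norm_num), (by norm_num), (by norm_num), (by norm_num), (by norm_num), (by norm_num), (by norm_num), (by norm_num), (by norm_num), (by norm_num), fun _ h => absurd h List.not_mem_nil⟩

theorem p35717456767063 : Nat.Prime 35717456767063 := by
  refine lucas 7 [2, 3, 7, 557, 883, 1303, 1327] (by norm_num) ?_ (by norm_num) (by norm_num) (by decide +kernel)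
    (by decide +kernel)
  simp only [List.forall_mem_cons]
  exact ⟨(by norm_num), (by norm_num), (by norm_num), (by norm_num), (by norm_num), (by norm_num), (by norm_num), fun _ h => absurd h List.not_mem_nil⟩

theorem p583867241485433 : Nat.Prime 583867241485433 := by
  refine lucas 3 [2, 2, 2, 61, 127, 9420860357] (by norm_num) ?_ (by norm_num) (by norm_num) (by decide +kernel)
    (by decide +kernel)
  simp only [List.forall_mem_cons]
  exact ⟨(by norm_num), (by norm_num), (by norm_num), (by norm_num), (by norm_num), p9420860357, fun _ h => absurd h List.not_mem_nil⟩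

theorem p274224764627625689 : Nat.Prime 274224764627625689 := by
  refine lucas 3 [2, 2, 2, 31, 311, 3555450220771] (by norm_num) ?_ (by norm_num) (by norm_num) (by decide +kernel)
    (by decide +kernel)
  simp only [List.forall_mem_cons]
  exact ⟨(by norm_num), (by norm_num), (by norm_num), (by norm_num), (by norm_num), p3555450220771, fun _ h => absurd h List.not_mem_nil⟩

theorem p2374496525874348241 : Nat.Prime 2374496525874348241 := by
  refine lucas 19 [2, 2, 2, 2, 3, 5, 277, 35717456767063] (by norm_num) ?_ (by norm_num) (by norm_num) (by decide +kernel)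
    (by decide +kernel)
  simp only [List.forall_mem_cons]
  exact ⟨(by norm_num), (by norm_num), (by norm_num), (by norm_num), (by norm_num), (by norm_num), (by norm_num), p35717456767063, fun _ h => absurd h List.not_mem_nil⟩

theorem p19175002942688032928599 : Nat.Prime 19175002942688032928599 := by
  refine lucas 3 [2, 3, 3, 11, 19, 59, 601, 2281, 63018038201] (by norm_num) ?_ (by norm_num) (by norm_num) (by decide +kernel)
    (by decide +kernel)
  simp only [List.forall_mem_cons]
  exact ⟨(by norm_num), (by norm_num), (by norm_num), (by norm_num), (by norm_num), (by norm_num), (by norm_num), (by norm_num), p63018038201, fun _ h => absurd h List.not_mem_nil⟩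

/-- no prime index below 400 -/
lemma no_small {q : ℕ} (hq : q.Prime) (hq2 : Odd q) (h : q < 400) :
    ¬ (KS (X q ^ 2) ∧ KS (X q ^ 2 + 1)) := by
  interval_cases q
  · exact absurd hq (by norm_num)
  · exact absurd hq (by norm_num)
  · exact absurd hq2 (by decide)
  · exact kill_x (r := 7) 3 (by norm_num) (by decide +kernel) (by decide +kernel) (by norm_num) (by norm_num) (by norm_num)
  · exact absurd hq (by norm_num)
  · exact kill_y (r := 29) 13 hq2 (by norm_num) (by decide +kernel) (by decide +kernel) (by norm_num) (by norm_num) (by norm_num)
  · exact absurd hq (by norm_num)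
  · exact kill_x (r := 239) 19 (by norm_num) (by decide +kernel) (by decide +kernel) (by norm_num) (by norm_num) (by norm_num)
  · exact absurd hq (by norm_num)
  · exact absurd hq (by norm_num)
  · exact absurd hq (by norm_num)
  · exact kill_x (r := 23) 7 (by norm_num) (by decide +kernel) (by decide +kernel) (by norm_num) (by norm_num) (by norm_num)
  · exact absurd hq (by norm_num)
  · exact kill_x (r := 79) 3 (by norm_num) (by decide +kernel) (by decide +kernel) (by norm_num) (by norm_num) (by norm_num)
  · exact absurd hq (by norm_num)
  · exact absurd hq (by norm_num)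
  · exact absurd hq (by norm_num)
  · exact kill_x (r := 103) 3 (by norm_num) (by decide +kernel) (by decide +kernel) (by norm_num) (by norm_num) (by norm_num)
  · exact absurd hq (by norm_num)
  · exact kill_y (r := 37) 3 hq2 (by norm_num) (by decide +kernel) (by decide +kernel) (by norm_num) (by norm_num) (by norm_num)
  · exact absurd hq (by norm_num)
  · exact absurd hq (by norm_num)
  · exact absurd hq (by norm_num)
  · exact kill_x (r := 47) 37 (by norm_num) (by decide +kernel) (by decide +kernel) (by norm_num) (by norm_num) (by norm_num)
  · exact absurd hq (by norm_num)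
  · exact absurd hq (by norm_num)
  · exact absurd hq (by norm_num)
  · exact absurd hq (by norm_num)
  · exact absurd hq (by norm_num)
  · exact kill_x (r := 63018038201) 139 p63018038201 (by decide +kernel) (by decide +kernel) (by norm_num) (by norm_num) (by norm_num)
  · exact absurd hq (by norm_num)
  · exact kill_y (r := 61) 3 hq2 (by norm_num) (by decide +kernel) (by decide +kernel) (by norm_num) (by norm_num) (by norm_num)
  · exact absurd hq (by norm_num)
  · exact absurd hq (by norm_num)
  · exact absurd hq (by norm_num)
  · exact absurd hq (by norm_num)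
  · exact absurd hq (by norm_num)
  · exact kill_x (r := 223) 3 (by norm_num) (by decide +kernel) (by decide +kernel) (by norm_num) (by norm_num) (by norm_num)
  · exact absurd hq (by norm_num)
  · exact absurd hq (by norm_num)
  · exact absurd hq (by norm_num)
  · exact kill_x (r := 2297) 13 (by norm_num) (by decide +kernel) (by decide +kernel) (by norm_num) (by norm_num) (by norm_num)
  · exact absurd hq (by norm_num)
  · exact kill_y (r := 11437) 3 hq2 (by norm_num) (by decide +kernel) (by decide +kernel) (by norm_num) (by norm_num) (by norm_num)
  · exact absurd hq (by norm_num)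
  · exact absurd hq (by norm_num)
  · exact absurd hq (by norm_num)
  · exact kill_y (r := 3761) 7 hq2 (by norm_num) (by decide +kernel) (by decide +kernel) (by norm_num) (by norm_num) (by norm_num)
  · exact absurd hq (by norm_num)
  · exact absurd hq (by norm_num)
  · exact absurd hq (by norm_num)
  · exact absurd hq (by norm_num)
  · exact absurd hq (by norm_num)
  · exact kill_x (r := 9940681) 3 (by norm_num) (by decide +kernel) (by decide +kernel) (by norm_num) (by norm_num) (by norm_num)
  · exact absurd hq (by norm_num)
  · exact absurd hq (by norm_num)
  · exact absurd hq (by norm_num)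
  · exact absurd hq (by norm_num)
  · exact absurd hq (by norm_num)
  · exact kill_x (r := 19175002942688032928599) 3 p19175002942688032928599 (by decide +kernel) (by decide +kernel) (by norm_num) (by norm_num) (by norm_num)
  · exact absurd hq (by norm_num)
  · exact kill_y (r := 853) 3 hq2 (by norm_num) (by decide +kernel) (by decide +kernel) (by norm_num) (by norm_num) (by norm_num)
  · exact absurd hq (by norm_num)
  · exact absurd hq (by norm_num)
  · exact absurd hq (by norm_num)
  · exact absurd hq (by norm_num)
  · exact absurd hq (by norm_num)
  · exact kill_y (r := 4289) 79 hq2 (by norm_num) (by decide +kernel) (by decide +kernel) (by norm_num) (by norm_num) (by norm_num)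
  · exact absurd hq (by norm_num)
  · exact absurd hq (by norm_num)
  · exact absurd hq (by norm_num)
  · exact kill_y (r := 569) 7 hq2 (by norm_num) (by decide +kernel) (by decide +kernel) (by norm_num) (by norm_num) (by norm_num)
  · exact absurd hq (by norm_num)
  · exact kill_x (r := 2593399) 3 (by norm_num) (by decide +kernel) (by decide +kernel) (by norm_num) (by norm_num) (by norm_num)
  · exact absurd hq (by norm_num)
  · exact absurd hq (by norm_num)
  · exact absurd hq (by norm_num)
  · exact absurd hq (by norm_num)
  · exact absurd hq (by norm_num)
  · exact kill_y (r := 157) 3 hq2 (by norm_num) (by decide +kernel) (by decide +kernel) (by norm_num) (by norm_num) (by norm_num)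
  · exact absurd hq (by norm_num)
  · exact absurd hq (by norm_num)
  · exact absurd hq (by norm_num)
  · exact kill_y (r := 1993) 3 hq2 (by norm_num) (by decide +kernel) (by decide +kernel) (by norm_num) (by norm_num) (by norm_num)
  · exact absurd hq (by norm_num)
  · exact absurd hq (by norm_num)
  · exact absurd hq (by norm_num)
  · exact absurd hq (by norm_num)
  · exact absurd hq (by norm_num)
  · exact kill_x (r := 2671) 3 (by norm_num) (by decide +kernel) (by decide +kernel) (by norm_num) (by norm_num) (by norm_num)
  · exact absurd hq (by norm_num)
  · exact absurd hq (by norm_num)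
  · exact absurd hq (by norm_num)
  · exact absurd hq (by norm_num)
  · exact absurd hq (by norm_num)
  · exact absurd hq (by norm_num)
  · exact absurd hq (by norm_num)
  · exact kill_x (r := 4463) 7 (by norm_num) (by decide +kernel) (by decide +kernel) (by norm_num) (by norm_num) (by norm_num)
  · exact absurd hq (by norm_num)
  · exact absurd hq (by norm_num)
  · exact absurd hq (by norm_num)
  · exact kill_x (r := 607) 3 (by norm_num) (by decide +kernel) (by decide +kernel) (by norm_num) (by norm_num) (by norm_num)
  · exact absurd hq (by norm_num)
  · exact kill_x (r := 1031) 7 (by norm_num) (by decide +kernel) (by decide +kernel) (by norm_num) (by norm_num) (by norm_num)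
  · exact absurd hq (by norm_num)
  · exact absurd hq (by norm_num)
  · exact absurd hq (by norm_num)
  · exact kill_y (r := 3637) 3 hq2 (by norm_num) (by decide +kernel) (by decide +kernel) (by norm_num) (by norm_num) (by norm_num)
  · exact absurd hq (by norm_num)
  · exact kill_x (r := 2617) 3 (by norm_num) (by decide +kernel) (by decide +kernel) (by norm_num) (by norm_num) (by norm_num)
  · exact absurd hq (by norm_num)
  · exact absurd hq (by norm_num)
  · exact absurd hq (by norm_num)
  · exact kill_x (r := 2713) 3 (by norm_num) (by decide +kernel) (by decide +kernel) (by norm_num) (by norm_num) (by norm_num)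
  · exact absurd hq (by norm_num)
  · exact absurd hq (by norm_num)
  · exact absurd hq (by norm_num)
  · exact absurd hq (by norm_num)
  · exact absurd hq (by norm_num)
  · exact absurd hq (by norm_num)
  · exact absurd hq (by norm_num)
  · exact absurd hq (by norm_num)
  · exact absurd hq (by norm_num)
  · exact absurd hq (by norm_num)
  · exact absurd hq (by norm_num)
  · exact absurd hq (by norm_num)
  · exact absurd hq (by norm_num)
  · exact kill_x (r := 583867241485433) 13 p583867241485433 (by decide +kernel) (by decide +kernel) (by norm_num) (by norm_num) (by norm_num)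
  · exact absurd hq (by norm_num)
  · exact absurd hq (by norm_num)
  · exact absurd hq (by norm_num)
  · exact kill_x (r := 263) 7 (by norm_num) (by decide +kernel) (by decide +kernel) (by norm_num) (by norm_num) (by norm_num)
  · exact absurd hq (by norm_num)
  · exact absurd hq (by norm_num)
  · exact absurd hq (by norm_num)
  · exact absurd hq (by norm_num)
  · exact absurd hq (by norm_num)
  · exact kill_y (r := 821) 7 hq2 (by norm_num) (by decide +kernel) (by decide +kernel) (by norm_num) (by norm_num) (by norm_num)
  · exact absurd hq (by norm_num)
  · exact kill_y (r := 277) 3 hq2 (by norm_num) (by decide +kernel) (by decide +kernel) (by norm_num) (by norm_num) (by norm_num)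
  · exact absurd hq (by norm_num)
  · exact absurd hq (by norm_num)
  · exact absurd hq (by norm_num)
  · exact absurd hq (by norm_num)
  · exact absurd hq (by norm_num)
  · exact absurd hq (by norm_num)
  · exact absurd hq (by norm_num)
  · exact absurd hq (by norm_num)
  · exact absurd hq (by norm_num)
  · exact kill_x (r := 214561) 3 (by norm_num) (by decide +kernel) (by decide +kernel) (by norm_num) (by norm_num) (by norm_num)
  · exact absurd hq (by norm_num)
  · exact kill_x (r := 2719) 3 (by norm_num) (by decide +kernel) (by decide +kernel) (by norm_num) (by norm_num) (by norm_num)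
  · exact absurd hq (by norm_num)
  · exact absurd hq (by norm_num)
  · exact absurd hq (by norm_num)
  · exact absurd hq (by norm_num)
  · exact absurd hq (by norm_num)
  · exact kill_y (r := 1096384693) 3 hq2 p1096384693 (by decide +kernel) (by decide +kernel) (by norm_num) (by norm_num) (by norm_num)
  · exact absurd hq (by norm_num)
  · exact absurd hq (by norm_num)
  · exact absurd hq (by norm_num)
  · exact absurd hq (by norm_num)
  · exact absurd hq (by norm_num)
  · exact kill_y (r := 820541) 19 hq2 (by norm_num) (by decide +kernel) (by decide +kernel) (by norm_num) (by norm_num) (by norm_num)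
  · exact absurd hq (by norm_num)
  · exact absurd hq (by norm_num)
  · exact absurd hq (by norm_num)
  · exact kill_x (r := 2889769) 3 (by norm_num) (by decide +kernel) (by decide +kernel) (by norm_num) (by norm_num) (by norm_num)
  · exact absurd hq (by norm_num)
  · exact absurd hq (by norm_num)
  · exact absurd hq (by norm_num)
  · exact absurd hq (by norm_num)
  · exact absurd hq (by norm_num)
  · exact kill_y (r := 5189) 7 hq2 (by norm_num) (by decide +kernel) (by decide +kernel) (by norm_num) (by norm_num) (by norm_num)
  · exact absurd hq (by norm_num)
  · exact absurd hq (by norm_num)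
  · exact absurd hq (by norm_num)
  · exact absurd hq (by norm_num)
  · exact absurd hq (by norm_num)
  · exact kill_x (r := 359) 7 (by norm_num) (by decide +kernel) (by decide +kernel) (by norm_num) (by norm_num) (by norm_num)
  · exact absurd hq (by norm_num)
  · exact kill_x (r := 177743) 80911 (by norm_num) (by decide +kernel) (by decide +kernel) (by norm_num) (by norm_num) (by norm_num)
  · exact absurd hq (by norm_num)
  · exact absurd hq (by norm_num)
  · exact absurd hq (by norm_num)
  · exact absurd hq (by norm_num)
  · exact absurd hq (by norm_num)
  · exact absurd hq (by norm_num)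
  · exact absurd hq (by norm_num)
  · exact absurd hq (by norm_num)
  · exact absurd hq (by norm_num)
  · exact kill_x (r := 860647) 3 (by norm_num) (by decide +kernel) (by decide +kernel) (by norm_num) (by norm_num) (by norm_num)
  · exact absurd hq (by norm_num)
  · exact kill_x (r := 167911) 3 (by norm_num) (by decide +kernel) (by decide +kernel) (by norm_num) (by norm_num) (by norm_num)
  · exact absurd hq (by norm_num)
  · exact absurd hq (by norm_num)
  · exact absurd hq (by norm_num)
  · exact kill_y (r := 15761) 7 hq2 (by norm_num) (by decide +kernel) (by decide +kernel) (by norm_num) (by norm_num) (by norm_num)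
  · exact absurd hq (by norm_num)
  · exact kill_y (r := 397) 3 hq2 (by norm_num) (by decide +kernel) (by decide +kernel) (by norm_num) (by norm_num) (by norm_num)
  · exact absurd hq (by norm_num)
  · exact absurd hq (by norm_num)
  · exact absurd hq (by norm_num)
  · exact absurd hq (by norm_num)
  · exact absurd hq (by norm_num)
  · exact absurd hq (by norm_num)
  · exact absurd hq (by norm_num)
  · exact absurd hq (by norm_num)
  · exact absurd hq (by norm_num)
  · exact absurd hq (by norm_num)
  · exact absurd hq (by norm_num)
  · exact kill_y (r := 421) 3 hq2 (by norm_num) (by decide +kernel) (by decide +kernel) (by norm_num) (by norm_num) (by norm_num)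
  · exact absurd hq (by norm_num)
  · exact absurd hq (by norm_num)
  · exact absurd hq (by norm_num)
  · exact absurd hq (by norm_num)
  · exact absurd hq (by norm_num)
  · exact absurd hq (by norm_num)
  · exact absurd hq (by norm_num)
  · exact absurd hq (by norm_num)
  · exact absurd hq (by norm_num)
  · exact absurd hq (by norm_num)
  · exact absurd hq (by norm_num)
  · exact kill_x (r := 7583) 7 (by norm_num) (by decide +kernel) (by decide +kernel) (by norm_num) (by norm_num) (by norm_num)
  · exact absurd hq (by norm_num)
  · exact absurd hq (by norm_num)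
  · exact absurd hq (by norm_num)
  · exact kill_y (r := 5449) 3 hq2 (by norm_num) (by decide +kernel) (by decide +kernel) (by norm_num) (by norm_num) (by norm_num)
  · exact absurd hq (by norm_num)
  · exact kill_y (r := 298157) 211 hq2 (by norm_num) (by decide +kernel) (by decide +kernel) (by norm_num) (by norm_num) (by norm_num)
  · exact absurd hq (by norm_num)
  · exact absurd hq (by norm_num)
  · exact absurd hq (by norm_num)
  · exact kill_x (r := 1399) 3 (by norm_num) (by decide +kernel) (by decide +kernel) (by norm_num) (by norm_num) (by norm_num)
  · exact absurd hq (by norm_num)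
  · exact absurd hq (by norm_num)
  · exact absurd hq (by norm_num)
  · exact absurd hq (by norm_num)
  · exact absurd hq (by norm_num)
  · exact kill_x (r := 479) 43 (by norm_num) (by decide +kernel) (by decide +kernel) (by norm_num) (by norm_num) (by norm_num)
  · exact absurd hq (by norm_num)
  · exact kill_x (r := 1447) 3 (by norm_num) (by decide +kernel) (by decide +kernel) (by norm_num) (by norm_num) (by norm_num)
  · exact absurd hq (by norm_num)
  · exact absurd hq (by norm_num)
  · exact absurd hq (by norm_num)
  · exact absurd hq (by norm_num)
  · exact absurd hq (by norm_num)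
  · exact absurd hq (by norm_num)
  · exact absurd hq (by norm_num)
  · exact absurd hq (by norm_num)
  · exact absurd hq (by norm_num)
  · exact kill_x (r := 503) 13 (by norm_num) (by decide +kernel) (by decide +kernel) (by norm_num) (by norm_num) (by norm_num)
  · exact absurd hq (by norm_num)
  · exact absurd hq (by norm_num)
  · exact absurd hq (by norm_num)
  · exact absurd hq (by norm_num)
  · exact absurd hq (by norm_num)
  · exact kill_y (r := 1640689) 3 hq2 (by norm_num) (by decide +kernel) (by decide +kernel) (by norm_num) (by norm_num) (by norm_num)
  · exact absurd hq (by norm_num)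
  · exact absurd hq (by norm_num)
  · exact absurd hq (by norm_num)
  · exact absurd hq (by norm_num)
  · exact absurd hq (by norm_num)
  · exact kill_y (r := 28492212829) 3 hq2 p28492212829 (by decide +kernel) (by decide +kernel) (by norm_num) (by norm_num) (by norm_num)
  · exact absurd hq (by norm_num)
  · exact absurd hq (by norm_num)
  · exact absurd hq (by norm_num)
  · exact absurd hq (by norm_num)
  · exact absurd hq (by norm_num)
  · exact kill_y (r := 2153) 7 hq2 (by norm_num) (by decide +kernel) (by decide +kernel) (by norm_num) (by norm_num) (by norm_num)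
  · exact absurd hq (by norm_num)
  · exact kill_y (r := 541) 3 hq2 (by norm_num) (by decide +kernel) (by decide +kernel) (by norm_num) (by norm_num) (by norm_num)
  · exact absurd hq (by norm_num)
  · exact absurd hq (by norm_num)
  · exact absurd hq (by norm_num)
  · exact absurd hq (by norm_num)
  · exact absurd hq (by norm_num)
  · exact kill_x (r := 2374496525874348241) 3 p2374496525874348241 (by decide +kernel) (by decide +kernel) (by norm_num) (by norm_num) (by norm_num)
  · exact absurd hq (by norm_num)
  · exact absurd hq (by norm_num)
  · exact absurd hq (by norm_num)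
  · exact kill_y (r := 9198817) 3 hq2 (by norm_num) (by decide +kernel) (by decide +kernel) (by norm_num) (by norm_num) (by norm_num)
  · exact absurd hq (by norm_num)
  · exact kill_y (r := 14149) 3 hq2 (by norm_num) (by decide +kernel) (by decide +kernel) (by norm_num) (by norm_num) (by norm_num)
  · exact absurd hq (by norm_num)
  · exact absurd hq (by norm_num)
  · exact absurd hq (by norm_num)
  · exact absurd hq (by norm_num)
  · exact absurd hq (by norm_num)
  · exact absurd hq (by norm_num)
  · exact absurd hq (by norm_num)
  · exact absurd hq (by norm_num)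
  · exact absurd hq (by norm_num)
  · exact kill_y (r := 4792710581) 13 hq2 p4792710581 (by decide +kernel) (by decide +kernel) (by norm_num) (by norm_num) (by norm_num)
  · exact absurd hq (by norm_num)
  · exact absurd hq (by norm_num)
  · exact absurd hq (by norm_num)
  · exact absurd hq (by norm_num)
  · exact absurd hq (by norm_num)
  · exact absurd hq (by norm_num)
  · exact absurd hq (by norm_num)
  · exact absurd hq (by norm_num)
  · exact absurd hq (by norm_num)
  · exact absurd hq (by norm_num)
  · exact absurd hq (by norm_num)
  · exact absurd hq (by norm_num)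
  · exact absurd hq (by norm_num)
  · exact kill_y (r := 613) 3 hq2 (by norm_num) (by decide +kernel) (by decide +kernel) (by norm_num) (by norm_num) (by norm_num)
  · exact absurd hq (by norm_num)
  · exact absurd hq (by norm_num)
  · exact absurd hq (by norm_num)
  · exact kill_x (r := 274224764627625689) 5484210608096107 p274224764627625689 (by decide +kernel) (by decide +kernel) (by norm_num) (by norm_num) (by norm_num)
  · exact absurd hq (by norm_num)
  · exact kill_x (r := 1879) 3 (by norm_num) (by decide +kernel) (by decide +kernel) (by norm_num) (by norm_num) (by norm_num)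
  · exact absurd hq (by norm_num)
  · exact absurd hq (by norm_num)
  · exact absurd hq (by norm_num)
  · exact kill_y (r := 1901) 7 hq2 (by norm_num) (by decide +kernel) (by decide +kernel) (by norm_num) (by norm_num) (by norm_num)
  · exact absurd hq (by norm_num)
  · exact absurd hq (by norm_num)
  · exact absurd hq (by norm_num)
  · exact absurd hq (by norm_num)
  · exact absurd hq (by norm_num)
  · exact absurd hq (by norm_num)
  · exact absurd hq (by norm_num)
  · exact absurd hq (by norm_num)
  · exact absurd hq (by norm_num)
  · exact absurd hq (by norm_num)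
  · exact absurd hq (by norm_num)
  · exact absurd hq (by norm_num)
  · exact absurd hq (by norm_num)
  · exact kill_y (r := 661) 3 hq2 (by norm_num) (by decide +kernel) (by decide +kernel) (by norm_num) (by norm_num) (by norm_num)
  · exact absurd hq (by norm_num)
  · exact absurd hq (by norm_num)
  · exact absurd hq (by norm_num)
  · exact absurd hq (by norm_num)
  · exact absurd hq (by norm_num)
  · exact kill_y (r := 8089) 3 hq2 (by norm_num) (by decide +kernel) (by decide +kernel) (by norm_num) (by norm_num) (by norm_num)
  · exact absurd hq (by norm_num)
  · exact absurd hq (by norm_num)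
  · exact absurd hq (by norm_num)
  · exact absurd hq (by norm_num)
  · exact absurd hq (by norm_num)
  · exact absurd hq (by norm_num)
  · exact absurd hq (by norm_num)
  · exact absurd hq (by norm_num)
  · exact absurd hq (by norm_num)
  · exact kill_y (r := 2777) 97 hq2 (by norm_num) (by decide +kernel) (by decide +kernel) (by norm_num) (by norm_num) (by norm_num)
  · exact absurd hq (by norm_num)
  · exact kill_x (r := 234529) 3 (by norm_num) (by decide +kernel) (by decide +kernel) (by norm_num) (by norm_num) (by norm_num)
  · exact absurd hq (by norm_num)
  · exact absurd hq (by norm_num)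
  · exact absurd hq (by norm_num)
  · exact kill_x (r := 4943) 13 (by norm_num) (by decide +kernel) (by decide +kernel) (by norm_num) (by norm_num) (by norm_num)
  · exact absurd hq (by norm_num)
  · exact absurd hq (by norm_num)
  · exact absurd hq (by norm_num)
  · exact absurd hq (by norm_num)
  · exact absurd hq (by norm_num)
  · exact kill_x (r := 719) 487 (by norm_num) (by decide +kernel) (by decide +kernel) (by norm_num) (by norm_num) (by norm_num)
  · exact absurd hq (by norm_num)
  · exact absurd hq (by norm_num)
  · exact absurd hq (by norm_num)
  · exact absurd hq (by norm_num)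
  · exact absurd hq (by norm_num)
  · exact absurd hq (by norm_num)
  · exact absurd hq (by norm_num)
  · exact kill_y (r := 733) 3 hq2 (by norm_num) (by decide +kernel) (by decide +kernel) (by norm_num) (by norm_num) (by norm_num)
  · exact absurd hq (by norm_num)
  · exact absurd hq (by norm_num)
  · exact absurd hq (by norm_num)
  · exact absurd hq (by norm_num)
  · exact absurd hq (by norm_num)
  · exact kill_y (r := 2237) 7 hq2 (by norm_num) (by decide +kernel) (by decide +kernel) (by norm_num) (by norm_num) (by norm_num)
  · exact absurd hq (by norm_num)
  · exact absurd hq (by norm_num)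
  · exact absurd hq (by norm_num)
  · exact absurd hq (by norm_num)
  · exact absurd hq (by norm_num)
  · exact kill_y (r := 757) 3 hq2 (by norm_num) (by decide +kernel) (by decide +kernel) (by norm_num) (by norm_num) (by norm_num)
  · exact absurd hq (by norm_num)
  · exact absurd hq (by norm_num)
  · exact absurd hq (by norm_num)
  · exact kill_x (r := 35389201) 3 p35389201 (by decide +kernel) (by decide +kernel) (by norm_num) (by norm_num) (by norm_num)
  · exact absurd hq (by norm_num)
  · exact absurd hq (by norm_num)
  · exact absurd hq (by norm_num)
  · exact absurd hq (by norm_num)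
  · exact absurd hq (by norm_num)
  · exact kill_y (r := 27661789) 3 hq2 p27661789 (by decide +kernel) (by decide +kernel) (by norm_num) (by norm_num) (by norm_num)
  · exact absurd hq (by norm_num)
  · exact absurd hq (by norm_num)
  · exact absurd hq (by norm_num)
  · exact absurd hq (by norm_num)
  · exact absurd hq (by norm_num)
  · exact absurd hq (by norm_num)
  · exact absurd hq (by norm_num)
  · exact kill_y (r := 2381) 31 hq2 (by norm_num) (by decide +kernel) (by decide +kernel) (by norm_num) (by norm_num) (by norm_num)
  · exact absurd hq (by norm_num)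
  · exact absurd hq (by norm_num)

end Pool.Agent.Helper12.KS
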