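import Mathlib

/-!
# Consecutive Kalita-Saikia numbers: reduction to prime Pell index
-/

set_option autoImplicit false

namespace Pool.Agent.Helper12.KS

/-- Kalita-Saikia numbers -/
def KS (n : ℕ) : Prop := 0 < n ∧ ∀ p : ℕ, p.Prime → p ∣ n →
  (∑ d ∈ (p ^ n.factorization p).divisors, d).Prime

/-- `(1 + √2) ^ k = (pell k).1 + (pell k).2 √2` -/
def pell : ℕ → ℕ × ℕ
  | 0 => (1, 0)
  | k + 1 => ((pell k).1 + 2 * (pell k).2, (pell k).1 + (pell k).2)

/-- rational part -/
def X (k : ℕ) : ℕ := (pell k).1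
/-- coefficient of `√2` -/
def Y (k : ℕ) : ℕ := (pell k).2

lemma X_succ (k : ℕ) : X (k + 1) = X k + 2 * Y k := rfl
lemma Y_succ (k : ℕ) : Y (k + 1) = X k + Y k := rfl
lemma X_zero : X 0 = 1 := rfl
lemma Y_zero : Y 0 = 0 := rfl

lemma XY_add (s t : ℕ) : X (s + t) = X s * X t + 2 * Y s * Y t ∧
    Y (s + t) = X s * Y t + Y s * X t := by
  induction t with
  | zero => simp [X_zero, Y_zero]
  | succ t ih =>
    obtain ⟨h1, h2⟩ := ih
    rw [← add_assoc, X_succ, Y_succ, X_succ, Y_succ, h1, h2]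
    constructor <;> ring

lemma norm_XY (k : ℕ) : (X k : ℤ) ^ 2 - 2 * (Y k : ℤ) ^ 2 = (-1) ^ k := by
  induction k with
  | zero => simp [X_zero, Y_zero]
  | succ k ih =>
    have h : (-1 : ℤ) ^ (k + 1) = -((-1) ^ k) := by ring
    rw [X_succ, Y_succ, h, ← ih]
    push_cast
    ring

lemma norm_odd {k : ℕ} (hk : Odd k) : X k ^ 2 + 1 = 2 * Y k ^ 2 := by
  have h := norm_XY k
  rw [hk.neg_one_pow] at h
  zify
  linarith

/-- quotients `X (d (2 j + 1)) / X d`, `Y (d (2 j + 1)) / Y d` -/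
def AB (a b : ℕ) : ℕ → ℕ × ℕ
  | 0 => (1, 1)
  | j + 1 => ((a ^ 2 + 2 * b ^ 2) * (AB a b j).1 + 4 * b ^ 2 * (AB a b j).2,
      (a ^ 2 + 2 * b ^ 2) * (AB a b j).2 + 2 * a ^ 2 * (AB a b j).1)

lemma XY_mul (d j : ℕ) : X (d * (2 * j + 1)) = X d * (AB (X d) (Y d) j).1 ∧
    Y (d * (2 * j + 1)) = Y d * (AB (X d) (Y d) j).2 := by
  induction j with
  | zero => simp [AB]
  | succ j ih =>
    obtain ⟨h1, h2⟩ := ih
    have e : d * (2 * (j + 1) + 1) = d * (2 * j + 1) + (d + d) := by ring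
    obtain ⟨h3, h4⟩ := XY_add (d * (2 * j + 1)) (d + d)
    obtain ⟨h5, h6⟩ := XY_add d d
    rw [e, h3, h4, h5, h6, h1, h2]
    simp only [AB]
    constructor <;> ring

lemma AB_a {r : ℕ} {a b : ℕ} (ha : (a : ZMod r) = 0) (j : ℕ) :
    ((AB a b j).1 : ZMod r) = (2 * j + 1) * (2 * b ^ 2) ^ j ∧
    ((AB a b j).2 : ZMod r) = (2 * b ^ 2) ^ j := by
  induction j with
  | zero => simp [AB]
  | succ j ih =>
    obtain ⟨h1, h2⟩ := ih
    simp only [AB]
    push_cast
    rw [h1, h2, ha]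
    constructor <;> ring

lemma AB_b {r : ℕ} {a b : ℕ} (hb : (b : ZMod r) = 0) (j : ℕ) :
    ((AB a b j).1 : ZMod r) = (a ^ 2) ^ j ∧
    ((AB a b j).2 : ZMod r) = (2 * j + 1) * (a ^ 2) ^ j := by
  induction j with
  | zero => simp [AB]
  | succ j ih =>
    obtain ⟨h1, h2⟩ := ih
    simp only [AB]
    push_cast
    rw [h1, h2, hb]
    constructor <;> ring

lemma Y_odd {k : ℕ} (hk : Odd k) : Odd (Y k) := by
  rw [← Nat.not_even_iff_odd]
  rintro ⟨c, hc⟩
  have h := norm_odd hk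
  have h1 : X k ^ 2 + 1 = 8 * c ^ 2 := by rw [h, hc]; ring
  have h2 : (X k ^ 2 + 1) % 4 = 0 := by rw [h1]; omega
  have h3 : X k % 4 = 0 ∨ X k % 4 = 1 ∨ X k % 4 = 2 ∨ X k % 4 = 3 := by omega
  rcases h3 with h3 | h3 | h3 | h3 <;> simp [Nat.add_mod, Nat.pow_mod, h3] at h2

lemma X_odd {k : ℕ} (hk : Odd k) : Odd (X k) := by
  rw [← Nat.not_even_iff_odd]
  rintro ⟨c, hc⟩
  have h := norm_odd hk
  have h1 : (X k ^ 2 + 1) % 2 = 0 := by rw [h]; omega
  have h2 : (X k ^ 2 + 1) % 2 = 1 := by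
    rw [hc, show (c + c) ^ 2 + 1 = 2 * (2 * c ^ 2) + 1 by ring]; omega
  omega

/-- the rank of apparition, inside a field with a square root `s` of 2 -/
lemma rank_aux {K : Type*} [Field K] {q r : ℕ} [CharP K r] (hq : q.Prime) (hq2 : Odd q)
    (hr : r.Prime) (hrodd : Odd r) (h : r ∣ X q ∨ r ∣ Y q) (s : K) (hs : s ^ 2 = 2)
    (hfer : (2 : K) ^ (r - 1) = 1) : q ∣ r ^ 2 - 1 := by
  have : Fact r.Prime := ⟨hr⟩
  have hcast : ∀ n : ℕ, (n : K) = 0 ↔ r ∣ n := fun n => CharP.cast_eq_zero_iff K r n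
  have hr2 : r ≠ 2 := by rintro rfl; exact absurd hrodd (by decide)
  have h2K : (2 : K) ≠ 0 := by
    intro h0
    have h1 : ((2 : ℕ) : K) = 0 := by exact_mod_cast h0
    rw [hcast] at h1
    exact hr2 ((Nat.prime_dvd_prime_iff_eq hr Nat.prime_two).mp h1)
  have hpow : ∀ k : ℕ, (1 + s) ^ k = (X k : K) + (Y k : K) * s := by
    intro k
    induction k with
    | zero => simp [X_zero, Y_zero]
    | succ k ih =>
      rw [pow_succ, ih, X_succ, Y_succ]
      push_cast
      linear_combination (Y k : K) * hs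
  have hne : (1 + s : K) ≠ 0 := by
    intro h0
    have h1 : (1 + s) * (1 - s) = (-1 : K) := by linear_combination -hs
    rw [h0, zero_mul] at h1
    have h2 : (1 : K) = 0 := by linear_combination h1
    exact one_ne_zero h2
  obtain ⟨c, hc⟩ := hrodd
  have hr1 : 1 ≤ c := by
    rcases Nat.eq_zero_or_pos c with h0 | h0
    · rw [h0] at hc; exact absurd (by rw [hc]; norm_num) hr.one_lt.ne'
    · exact h0
  have hF : (1 + s) ^ (r ^ 2) = 1 + s := by
    rw [add_pow_char_pow, one_pow]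
    congr 1
    have h5 : r ^ 2 = 2 * ((r - 1) * (c + 1)) + 1 := by
      rw [hc, show 2 * c + 1 - 1 = 2 * c by omega]; ring
    rw [h5, pow_succ, pow_mul, hs, pow_mul, hfer, one_pow, one_mul]
  have hF' : (1 + s) ^ (r ^ 2 - 1) = 1 := by
    have h1 : 1 ≤ r ^ 2 := Nat.one_le_pow _ _ hr.pos
    have h2 : (1 + s) ^ (r ^ 2 - 1) * (1 + s) = 1 * (1 + s) := by
      rw [← pow_succ, Nat.sub_add_cancel h1, hF, one_mul]
    exact mul_right_cancel₀ hne h2
  have hN : (X q : K) ^ 2 + 1 = 2 * (Y q : K) ^ 2 := by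
    have h1 := congrArg (Nat.cast (R := K)) (norm_odd hq2)
    push_cast at h1
    exact h1
  have h4q : (1 + s) ^ (4 * q) = 1 := by
    have h1 : (1 + s) ^ (4 * q) = ((1 + s) ^ q) ^ 4 := by rw [← pow_mul, mul_comm]
    rw [h1, hpow q]
    rcases h with h | h
    · have h2 : (X q : K) = 0 := (hcast _).mpr h
      rw [h2] at hN ⊢
      have h3 : (0 + (Y q : K) * s) ^ 4 = (s ^ 2 * (Y q : K) ^ 2) ^ 2 := by ring
      rw [h3, hs, ← hN]
      ring
    · have h2 : (Y q : K) = 0 := (hcast _).mpr h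
      rw [h2] at hN ⊢
      have h3 : ((X q : K) + 0 * s) ^ 4 = ((X q : K) ^ 2) ^ 2 := by ring
      rw [h3, show (X q : K) ^ 2 = -1 by linear_combination hN]
      ring
  by_contra hcon
  have hcop : Nat.Coprime q (r ^ 2 - 1) := (Nat.Prime.coprime_iff_not_dvd hq).mpr hcon
  have h1 := orderOf_dvd_of_pow_eq_one hF'
  have h2 := orderOf_dvd_of_pow_eq_one h4q
  have h3 : Nat.Coprime (orderOf (1 + s)) q := (Nat.Coprime.coprime_dvd_right h1 hcop).symm
  have h4 : orderOf (1 + s) ∣ 4 := h3.dvd_of_dvd_mul_right h2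
  have h5 : (1 + s) ^ 4 = 1 := orderOf_dvd_iff_pow_eq_one.mp h4
  rw [hpow 4] at h5
  have h6 : X 4 = 17 := rfl
  have h7 : Y 4 = 12 := rfl
  rw [h6, h7] at h5
  push_cast at h5
  have h8 : (4 : K) * (4 + 3 * s) = 0 := by linear_combination h5
  have h9 : (4 : K) ≠ 0 := by
    have h10 : (4 : K) = 2 * 2 := by norm_num
    rw [h10]; exact mul_ne_zero h2K h2K
  have h10 : 4 + 3 * s = 0 := (mul_eq_zero.mp h8).resolve_left h9
  apply h2K
  linear_combination (3 * s - 4) * h10 - 9 * hs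

/-- the rank of apparition: a prime factor of `X q * Y q`, `q` an odd prime, is larger than `q` -/
lemma rank {q r : ℕ} (hq : q.Prime) (hq2 : Odd q) (hr : r.Prime) (h : r ∣ X q ∨ r ∣ Y q) :
    q < r := by
  have : Fact r.Prime := ⟨hr⟩
  have hrodd : Odd r := by
    rcases h with h | h
    · exact (X_odd hq2).of_dvd_nat h
    · exact (Y_odd hq2).of_dvd_nat h
  have hr2 : r ≠ 2 := by rintro rfl; exact absurd hrodd (by decide)
  obtain ⟨s, hs⟩ := IsAlgClosed.exists_pow_nat_eq (2 : AlgebraicClosure (ZMod r)) (n := 2)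
    (by norm_num)
  have : CharP (AlgebraicClosure (ZMod r)) r :=
    charP_of_injective_algebraMap (algebraMap (ZMod r) (AlgebraicClosure (ZMod r))).injective r
  have h2Z : (2 : ZMod r) ≠ 0 := by
    intro h0
    have h1 : ((2 : ℕ) : ZMod r) = 0 := by exact_mod_cast h0
    rw [ZMod.natCast_eq_zero_iff] at h1
    exact hr2 ((Nat.prime_dvd_prime_iff_eq hr Nat.prime_two).mp h1)
  have hfer : (2 : AlgebraicClosure (ZMod r)) ^ (r - 1) = 1 := by
    have h3 : (2 : ZMod r) ^ (r - 1) = 1 := ZMod.pow_card_sub_one_eq_one h2Z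
    have h4 := congrArg (algebraMap (ZMod r) (AlgebraicClosure (ZMod r))) h3
    rw [map_pow, map_one, map_ofNat] at h4
    exact h4
  have hdvd := rank_aux hq hq2 hr hrodd h s hs hfer
  obtain ⟨c, hc⟩ := hrodd
  have hr1 : 1 ≤ c := by
    rcases Nat.eq_zero_or_pos c with h0 | h0
    · rw [h0] at hc; exact absurd (by rw [hc]; norm_num) hr.one_lt.ne'
    · exact h0
  have h1 : r ^ 2 - 1 = (r - 1) * (r + 1) := by
    rw [hc, show 2 * c + 1 - 1 = 2 * c by omega,
      show (2 * c + 1) ^ 2 = 2 * c * (2 * c + 1 + 1) + 1 by ring]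
    omega
  rw [h1] at hdvd
  rcases (Nat.Prime.dvd_mul hq).mp hdvd with h2 | h2
  · have h3 := Nat.le_of_dvd (by omega) h2
    omega
  · have h3 := Nat.le_of_dvd (by omega) h2
    rcases lt_trichotomy q r with h4 | h4 | h4
    · exact h4
    · exfalso
      rw [h4] at h2
      have h5 : r ∣ 1 := by
        have h6 := Nat.dvd_sub h2 (dvd_refl r)
        simpa using h6
      exact hr.one_lt.ne' (Nat.dvd_one.mp h5)
    · exfalso
      have h5 : q = r + 1 := by omega
      obtain ⟨e, he⟩ := hq2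
      omega

/-- multiplicities do not change -/
lemma fac_X {q m r : ℕ} (hq2 : Odd q) (hm : Odd m) (hr : r.Prime) (h : r ∣ X q) (hrm : ¬ r ∣ m) :
    (X (q * m)).factorization r = (X q).factorization r := by
  have : Fact r.Prime := ⟨hr⟩
  obtain ⟨j, rfl⟩ := hm
  have h1 := (XY_mul q j).1
  have hN := norm_odd hq2
  have hX0 : X q ≠ 0 := by have := X_odd hq2; intro h0; rw [h0] at this; exact absurd this (by decide)
  have hA : ¬ r ∣ (AB (X q) (Y q) j).1 := by
    rw [← CharP.cast_eq_zero_iff (ZMod r) r]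
    have ha : (X q : ZMod r) = 0 := (CharP.cast_eq_zero_iff (ZMod r) r _).mpr h
    rw [(AB_a ha j).1]
    have hN' : (X q : ZMod r) ^ 2 + 1 = 2 * (Y q : ZMod r) ^ 2 := by
      have h9 := congrArg (Nat.cast (R := ZMod r)) hN
      push_cast at h9
      exact h9
    rw [← hN', ha]
    intro h0
    apply hrm
    rw [← CharP.cast_eq_zero_iff (ZMod r) r]
    push_cast
    simpa using h0
  have hA0 : (AB (X q) (Y q) j).1 ≠ 0 := by intro h0; rw [h0] at hA; exact hA (dvd_zero r)
  rw [h1, Nat.factorization_mul hX0 hA0, Finsupp.add_apply, Nat.factorization_eq_zero_of_not_dvd hA,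
    add_zero]

lemma fac_Y {q m r : ℕ} (hq2 : Odd q) (hm : Odd m) (hr : r.Prime) (h : r ∣ Y q) (hrm : ¬ r ∣ m) :
    (Y (q * m)).factorization r = (Y q).factorization r := by
  have : Fact r.Prime := ⟨hr⟩
  obtain ⟨j, rfl⟩ := hm
  have h1 := (XY_mul q j).2
  have hN := norm_odd hq2
  have hY0 : Y q ≠ 0 := by have := Y_odd hq2; intro h0; rw [h0] at this; exact absurd this (by decide)
  have hA : ¬ r ∣ (AB (X q) (Y q) j).2 := by
    rw [← CharP.cast_eq_zero_iff (ZMod r) r]
    have hb : (Y q : ZMod r) = 0 := (CharP.cast_eq_zero_iff (ZMod r) r _).mpr h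
    rw [(AB_b hb j).2]
    have hN' : (X q : ZMod r) ^ 2 + 1 = 2 * (Y q : ZMod r) ^ 2 := by
      have h9 := congrArg (Nat.cast (R := ZMod r)) hN
      push_cast at h9
      exact h9
    have h2 : (X q : ZMod r) ^ 2 = -1 := by rw [hb] at hN'; linear_combination hN'
    rw [h2]
    intro h0
    apply hrm
    rw [← CharP.cast_eq_zero_iff (ZMod r) r]
    push_cast
    rcases mul_eq_zero.mp h0 with h3 | h3
    · simpa using h3
    · exact absurd h3 (pow_ne_zero _ (neg_ne_zero.mpr one_ne_zero))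
  have hA0 : (AB (X q) (Y q) j).2 ≠ 0 := by intro h0; rw [h0] at hA; exact hA (dvd_zero r)
  rw [h1, Nat.factorization_mul hY0 hA0, Finsupp.add_apply, Nat.factorization_eq_zero_of_not_dvd hA,
    add_zero]

/-- sum of divisors of a prime power -/
lemma sig {p : ℕ} (hp : p.Prime) (e : ℕ) :
    ∑ d ∈ (p ^ e).divisors, d = ∑ i ∈ Finset.range (e + 1), p ^ i := by
  rw [Nat.sum_divisors_prime_pow hp]

/-- odd exponents occur only at the prime 2, with exponent 1 -/
lemma odd_exp {p t : ℕ} (hp : p.Prime) (h : (∑ d ∈ (p ^ (2 * t + 1)).divisors, d).Prime) :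
    p = 2 ∧ t = 0 := by
  rw [sig hp] at h
  have h1 : ∀ t : ℕ, ∑ i ∈ Finset.range (2 * t + 1 + 1), p ^ i =
      (1 + p) * ∑ i ∈ Finset.range (t + 1), p ^ (2 * i) := by
    intro t
    induction t with
    | zero => simp [Finset.sum_range_succ]
    | succ t ih =>
      rw [show 2 * (t + 1) + 1 + 1 = (2 * t + 1 + 1) + 1 + 1 by ring, Finset.sum_range_succ,
        Finset.sum_range_succ, ih, Finset.sum_range_succ _ (t + 1)]
      ring
  rw [h1 t] at h
  rcases Nat.eq_zero_or_pos t with h0 | h0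
  · refine ⟨?_, h0⟩
    rw [h0] at h
    simp at h
    rcases hp.eq_two_or_odd' with h2 | h2
    · exact h2
    · exfalso
      obtain ⟨c, hc⟩ := h2
      have h3 : (1 + p) = 2 := by
        have h4 : 2 ∣ 1 + p := ⟨c + 1, by omega⟩
        exact ((Nat.prime_dvd_prime_iff_eq Nat.prime_two h).mp h4).symm
      have := hp.two_le
      omega
  · exfalso
    refine Nat.not_prime_mul (by have := hp.two_le; omega) ?_ h
    have h2 : ∑ i ∈ Finset.range (t + 1), p ^ (2 * i) ≥ p ^ (2 * 0) + p ^ (2 * t) := by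
      rw [Finset.sum_range_succ]
      have h3 : p ^ (2 * 0) ≤ ∑ i ∈ Finset.range t, p ^ (2 * i) :=
        Finset.single_le_sum (f := fun i => p ^ (2 * i)) (fun i _ => Nat.zero_le _)
          (Finset.mem_range.mpr h0)
      omega
    have h3 : 1 ≤ p ^ (2 * t) := Nat.one_le_pow _ _ hp.pos
    have h4 : p ^ (2 * 0) = 1 := by simp
    omega

/-- a Kalita-Saikia number is a square or twice an odd square -/
lemma shape {n : ℕ} (h : KS n) : (∃ a, n = a ^ 2) ∨ (∃ b, Odd b ∧ n = 2 * b ^ 2) := by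
  obtain ⟨hn, hK⟩ := h
  obtain ⟨a, b, hab, ha⟩ := Nat.sq_mul_squarefree n
  have hb0 : b ≠ 0 := by rintro rfl; simp at hab; omega
  have ha0 : a ≠ 0 := by rintro rfl; simp at hab; omega
  have key : ∀ p : ℕ, p.Prime → p ∣ a → p = 2 ∧ b.factorization p = 0 := by
    intro p hp hpa
    have h1 : n.factorization p = 2 * b.factorization p + 1 := by
      rw [← hab, Nat.factorization_mul (pow_ne_zero _ hb0) ha0, Finsupp.add_apply,
        Nat.factorization_pow, Finsupp.smul_apply, smul_eq_mul]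
      congr 1
      have h2 : a.factorization p ≤ 1 := (Nat.squarefree_iff_factorization_le_one ha0).mp ha p
      have h3 : 0 < a.factorization p := hp.factorization_pos_of_dvd ha0 hpa
      omega
    have h2 : p ∣ n := by rw [← hab]; exact dvd_mul_of_dvd_right hpa _
    have h3 := hK p hp h2
    rw [h1] at h3
    exact odd_exp hp h3
  by_cases ha1 : a = 1
  · left; exact ⟨b, by rw [← hab, ha1, mul_one]⟩
  · right
    obtain ⟨p, hp, hpa⟩ := Nat.exists_prime_and_dvd ha1
    obtain ⟨rfl, hb⟩ := key p hp hpa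
    have ha2 : a = 2 := by
      obtain ⟨c, hc⟩ := hpa
      by_cases hc1 : c = 1
      · rw [hc, hc1]
      · exfalso
        obtain ⟨l, hl, hlc⟩ := Nat.exists_prime_and_dvd hc1
        obtain ⟨rfl, -⟩ := key l hl (by rw [hc]; exact dvd_mul_of_dvd_right hlc _)
        obtain ⟨e, he⟩ := hlc
        have h1 : 2 * 2 ∣ a := ⟨e, by rw [hc, he]; ring⟩
        have h2 := ha 2 h1
        exact absurd (Nat.isUnit_iff.mp h2) (by norm_num)
    refine ⟨b, ?_, by rw [← hab, ha2]; ring⟩
    rw [← Nat.not_even_iff_odd]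
    rintro hev
    have h1 : 2 ∣ b := hev.two_dvd
    have h2 : 0 < b.factorization 2 := Nat.prime_two.factorization_pos_of_dvd hb0 h1
    omega

/-- solutions of `a ^ 2 + 1 = 2 b ^ 2` -/
lemma pell_sol : ∀ b a : ℕ, a ^ 2 + 1 = 2 * b ^ 2 → ∃ j : ℕ, a = X (2 * j + 1) ∧ b = Y (2 * j + 1) := by
  intro b
  induction b using Nat.strong_induction_on with
  | _ b ih =>
    intro a h
    rcases Nat.lt_or_ge b 2 with hb | hb
    · have hb1 : b = 1 := by
        interval_cases b
        · simp at h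
        · rfl
      subst hb1
      have ha : a = 1 := by nlinarith
      exact ⟨0, by rw [ha]; rfl, rfl⟩
    · have h1 : 4 * b ≤ 3 * a := by nlinarith
      have h2 : 2 * a ≤ 3 * b := by nlinarith
      have h3 : b < a := by nlinarith
      obtain ⟨a', ha'⟩ : ∃ a', 3 * a = 4 * b + a' := Nat.exists_eq_add_of_le h1
      obtain ⟨b', hb'⟩ : ∃ b', 3 * b = 2 * a + b' := Nat.exists_eq_add_of_le h2
      have ea : a = 3 * a' + 4 * b' := by omega
      have eb : b = 2 * a' + 3 * b' := by omega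
      have h4 : a' ^ 2 + 1 = 2 * b' ^ 2 := by
        rw [ea, eb] at h
        nlinarith
      obtain ⟨j, hj1, hj2⟩ := ih b' (by omega) a' h4
      refine ⟨j + 1, ?_, ?_⟩
      · rw [show 2 * (j + 1) + 1 = (2 * j + 1) + 2 by ring, (XY_add _ 2).1, ea, hj1, hj2]
        have h5 : X 2 = 3 := rfl
        have h6 : Y 2 = 2 := rfl
        rw [h5, h6]; ring
      · rw [show 2 * (j + 1) + 1 = (2 * j + 1) + 2 by ring, (XY_add _ 2).2, eb, hj1, hj2]
        have h5 : X 2 = 3 := rfl
        have h6 : Y 2 = 2 := rfl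
        rw [h5, h6]; ring

/-- pairs come from odd Pell indices -/
lemma pair_index {n : ℕ} (hn : 2 ≤ n) (h1 : KS n) (h2 : KS (n + 1)) :
    ∃ k, Odd k ∧ 1 < k ∧ n = X k ^ 2 ∧ n + 1 = 2 * Y k ^ 2 := by
  rcases shape h1 with ⟨a, ha⟩ | ⟨b, hb, hnb⟩
  · rcases shape h2 with ⟨c, hc⟩ | ⟨b, hb, hnb⟩
    · exfalso
      have h3 : a < c := by
        by_contra hcon
        push Not at hcon
        have := Nat.pow_le_pow_left hcon 2
        omega
      have h4 : (a + 1) ^ 2 ≤ c ^ 2 := Nat.pow_le_pow_left h3 2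
      have h5 : a ≠ 0 := by rintro rfl; omega
      have h6 : (a + 1) ^ 2 = a ^ 2 + 2 * a + 1 := by ring
      omega
    · obtain ⟨j, hj1, hj2⟩ := pell_sol b a (by rw [← ha, ← hnb])
      refine ⟨2 * j + 1, ⟨j, rfl⟩, ?_, by rw [ha, hj1], by rw [hnb, hj2]⟩
      rcases Nat.eq_zero_or_pos j with h0 | h0
      · exfalso
        rw [h0] at hj1
        have h3 : X (2 * 0 + 1) = 1 := rfl
        rw [h3] at hj1
        rw [hj1] at ha
        omega
      · omega
  · exfalso
    rcases shape h2 with ⟨c, hc⟩ | ⟨c, hc', hc⟩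
    · obtain ⟨e, he⟩ := hb
      have h3 : c ^ 2 = 8 * (e ^ 2 + e) + 3 := by
        rw [← hc, hnb, he]; ring
      have h4 : c ^ 2 % 8 = 3 := by rw [h3]; omega
      have h5 : c % 8 < 8 := Nat.mod_lt _ (by norm_num)
      rw [Nat.pow_mod] at h4
      interval_cases h6 : c % 8 <;> simp at h4
    · omega

/-- the reduction to the largest prime factor of the index -/
lemma reduce {k q : ℕ} (hk : Odd k) (hq : q.Prime) (hqk : q ∣ k)
    (hmax : ∀ l : ℕ, l.Prime → l ∣ k → l ≤ q) (h1 : KS (X k ^ 2)) (h2 : KS (2 * Y k ^ 2)) :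
    KS (X q ^ 2) ∧ KS (X q ^ 2 + 1) := by
  have hq2 : Odd q := hk.of_dvd_nat hqk
  obtain ⟨m, hm⟩ := hqk
  have hm2 : Odd m := hk.of_dvd_nat ⟨q, by rw [hm]; ring⟩
  have hX0 : 0 < X q := (X_odd hq2).pos
  have hY0 : 0 < Y q := (Y_odd hq2).pos
  have hnm : ∀ r : ℕ, r.Prime → (r ∣ X q ∨ r ∣ Y q) → ¬ r ∣ m := by
    intro r hr h hrm
    have h3 := rank hq hq2 hr h
    have h4 := hmax r hr (by rw [hm]; exact dvd_mul_of_dvd_right hrm _)
    omega
  constructor
  · refine ⟨by positivity, fun r hr hd => ?_⟩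
    have hrX : r ∣ X q := hr.dvd_of_dvd_pow hd
    have h3 : r ∣ X k ^ 2 := by
      refine dvd_pow ?_ (by norm_num)
      rw [hm]
      obtain ⟨j, hj⟩ := hm2
      rw [hj, (XY_mul q j).1]
      exact dvd_mul_of_dvd_left hrX _
    have h4 := h1.2 r hr h3
    have h5 : (X q ^ 2).factorization r = (X k ^ 2).factorization r := by
      rw [Nat.factorization_pow, Nat.factorization_pow, Finsupp.smul_apply, Finsupp.smul_apply, hm,
        fac_X hq2 hm2 hr hrX (hnm r hr (Or.inl hrX))]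
    rw [h5]; exact h4
  · rw [norm_odd hq2]
    refine ⟨by positivity, fun r hr hd => ?_⟩
    by_cases hr2 : r = 2
    · subst hr2
      have h5 : (2 * Y q ^ 2).factorization 2 = 1 := by
        rw [Nat.factorization_mul (by norm_num) (by positivity), Finsupp.add_apply,
          Nat.Prime.factorization_self Nat.prime_two, Nat.factorization_eq_zero_of_not_dvd]
        intro h6
        have h7 := Nat.prime_two.dvd_of_dvd_pow h6
        have h8 := Y_odd hq2
        rw [← Nat.not_even_iff_odd] at h8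
        exact h8 (even_iff_two_dvd.mpr h7)
      rw [h5, sig Nat.prime_two]
      norm_num [Finset.sum_range_succ]
    · have hrY : r ∣ Y q := by
        rcases (Nat.Prime.dvd_mul hr).mp hd with h3 | h3
        · exact absurd ((Nat.prime_dvd_prime_iff_eq hr Nat.prime_two).mp h3) hr2
        · exact hr.dvd_of_dvd_pow h3
      have h3 : r ∣ 2 * Y k ^ 2 := by
        refine dvd_mul_of_dvd_right (dvd_pow ?_ (by norm_num)) _
        rw [hm]
        obtain ⟨j, hj⟩ := hm2
        rw [hj, (XY_mul q j).2]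
        exact dvd_mul_of_dvd_left hrY _
      have h4 := h2.2 r hr h3
      have hYk : Y k ≠ 0 := (Y_odd hk).pos.ne'
      have h5 : (2 * Y q ^ 2).factorization r = (2 * Y k ^ 2).factorization r := by
        rw [Nat.factorization_mul (by norm_num) (by positivity),
          Nat.factorization_mul (by norm_num) (by positivity), Finsupp.add_apply, Finsupp.add_apply,
          Nat.factorization_pow, Nat.factorization_pow, Finsupp.smul_apply, Finsupp.smul_apply, hm,
          fac_Y hq2 hm2 hr hrY (hnm r hr (Or.inr hrY))]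
      rw [h5]; exact h4

end Pool.Agent.Helper12.KS
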